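import Pool.Agent.Helper92.TN.GoalsH

/-!
# Project TN (MP_a41896_nt), packet GEN: everything is algebraic over the `x(υ_i)`
-/

set_option autoImplicit false

namespace Pool.Agent.Helper57.TN.GEN

open MvPolynomial WeierstrassCurve
open Pool.Agent.Helper29.BL Pool.Agent.Helper92.Ru Pool.Agent.Helper42.SG
open Pool.Agent.Helper60.T3 (WL IP zd S_DADD S_DEX)
open Pool.Agent.Helper92.TN

/-- `ψ(P)^2 = B(x(P))` for `P ≠ 0` -/
theorem ps_sq {F : Type} [Field F] (W : Affine F) (P : W.Point) (hP : P ≠ 0) :
    ps P ^ 2 = Bf W (xc P) := by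
  cases P with
  | zero => exact absurd rfl hP
  | some x y h =>
    have h1 := h.1
    rw [Affine.equation_iff] at h1
    simp only [ps, xc, Bf, WeierstrassCurve.b₂, WeierstrassCurve.b₄, WeierstrassCurve.b₆]
    linear_combination 4 * h1

/-- the chain rule -/
theorem chain {K Ω σ : Type} [Field K] [Field Ω] [Algebra K Ω] [Fintype σ] [DecidableEq σ]
    (D : Derivation K Ω Ω) (X : σ → Ω) (g : MvPolynomial σ K) :
    D (aeval X g) = ∑ b, aeval X (pderiv b g) * D (X b) := by
  induction g using MvPolynomial.induction_on with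
  | C a => simp
  | add p q hp hq =>
    rw [map_add, map_add, hp, hq, ← Finset.sum_add_distrib]
    refine Finset.sum_congr rfl fun b _ => ?_
    rw [map_add, map_add, add_mul]
  | mul_X p i hp =>
    rw [map_mul, aeval_X, Derivation.leibniz, hp]
    have h1 : ∀ b, aeval X (pderiv b (p * MvPolynomial.X i)) * D (X b) =
        (if i = b then aeval X p * D (X b) else 0) +
          X i * (aeval X (pderiv b p) * D (X b)) := by
      intro b
      rw [pderiv_mul, pderiv_X, map_add, map_mul, map_mul, aeval_X]
      rcases eq_or_ne i b with h | h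
      · subst h
        simp only [Pi.single_eq_same, map_one, if_true]
        ring
      · rw [Pi.single_eq_of_ne h, if_neg h, map_zero]
        ring
    rw [Finset.sum_congr rfl fun b _ => h1 b, Finset.sum_add_distrib, Finset.sum_ite_eq,
      if_pos (Finset.mem_univ i), ← Finset.mul_sum]
    simp only [smul_eq_mul]

/-- a root of `B` is algebraic -/
theorem alg_root {K Ω : Type} [Field K] [CharZero K] [Field Ω] [Algebra K Ω] (W : Affine K)
    (z : Ω) (h : Bf (WL Ω W) z = 0) : IsAlgebraic K z := by
  refine ⟨Polynomial.C 4 * Polynomial.X ^ 3 + Polynomial.C W.b₂ * Polynomial.X ^ 2 +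
    Polynomial.C (2 * W.b₄) * Polynomial.X + Polynomial.C W.b₆, ?_, ?_⟩
  · intro h0
    have h1 := congrArg (fun p => Polynomial.coeff p 3) h0
    simp only [Polynomial.coeff_add, Polynomial.coeff_C_mul,
      Polynomial.coeff_X_pow, Polynomial.coeff_X, Polynomial.coeff_C, Polynomial.coeff_zero] at h1
    norm_num at h1
  · simp only [map_add, map_mul, map_pow, Polynomial.aeval_X, Polynomial.aeval_C, map_ofNat]
    simp only [Bf, WeierstrassCurve.map_b₂, WeierstrassCurve.map_b₄, WeierstrassCurve.map_b₆] at h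
    exact h

theorem t (hA : ACLA) (hD : S_DADD) (hX : S_DEX) : GEN := by
  intro K Ω _ _ _ _ _ _ σ _ _ W hW n a g x y t hcard hx0 hy0 ht hyc hg hgy hli b0
  by_contra hb
  obtain ⟨k1, hk1⟩ : ∃ k : IntermediateField K Ω,
    k = acl K (Set.range fun i => xc (y i a - x a)) := ⟨_, rfl⟩
  rw [← hk1] at hb
  obtain ⟨a1, a2, a3, -, -, a6, a7⟩ := hA K Ω (Set.range fun i => xc (y i a - x a)) ∅
  obtain ⟨c1, -, c3, -, -, -, -⟩ := hA K Ω ∅ (Set.range fun i => xc (y i a - x a))
  have a6' := a6 inferInstance
  have a7' := a7 inferInstance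
  have c3' := c3 (Set.empty_subset _)
  rw [← hk1] at a1 a2 a6' a7' c3'
  have iA : IsAlgClosed k1 := a6'
  have : CharZero Ω := charZero_of_injective_algebraMap (algebraMap K Ω).injective
  have : CharZero k1 := charZero_of_injective_algebraMap (algebraMap K k1).injective
  have htr : Transcendental k1 (xc (x b0)) := (a7' _).resolve_left hb
  obtain ⟨D0, hD0, -⟩ := hX k1 Ω (xc (x b0)) 1 htr one_ne_zero
  obtain ⟨D, hDD⟩ : ∃ D : Derivation K Ω Ω, ∀ z, D z = D0 z := ⟨D0.restrictScalars K, fun z => rfl⟩
  have hkill : ∀ z ∈ k1, D z = 0 := by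
    intro z hz
    rw [hDD]
    exact D0.map_algebraMap ⟨z, hz⟩
  have hD1 : D (xc (x b0)) = 1 := by rw [hDD, hD0]
  -- the differential vanishes at points with coordinates in `k1`
  have hz0 : ∀ (W' : Affine K) (P : (WL Ω W').Point), xc P ∈ k1 → zd D P = 0 := by
    intro W' P hP
    rw [zd, hkill _ hP, zero_div]
  -- (N)
  have hN : ∀ (W' : Affine K) (P : (WL Ω W').Point), P ≠ 0 → D (xc P) = ps P * zd D P := by
    intro W' P hP
    rcases eq_or_ne (ps P) 0 with h | h
    · have h1 := ps_sq _ P hP
      rw [h, zero_pow two_ne_zero] at h1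
      have h2 : IsAlgebraic K (xc P) := alg_root W' _ h1.symm
      have h3 : xc P ∈ k1 := by
        rw [a1]
        exact h2.tower_top _
      rw [hkill _ h3, h, zero_mul]
    · rw [zd, mul_div_cancel₀ _ h]
  have hsum : ∀ z : ∀ i, (WL Ω (W i)).Point, (∀ i, z i ≠ 0) →
      aeval (fun b => xc (z b)) g = 0 → ∑ b, nv W g z b * zd D (z b) = 0 := by
    intro z hz h
    have h1 := chain D (fun b => xc (z b)) g
    rw [h, map_zero] at h1
    rw [h1]
    refine Finset.sum_congr rfl fun b _ => ?_
    rw [nv, hN _ _ (hz b)]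
    ring
  have hom : ∀ i b, zd D (y i b) = zd D (x b) := by
    intro i b
    have := hW b
    rcases eq_or_ne b a with h | h
    · subst h
      have h1 := hD K Ω (W b) D (x b) (y i b - x b)
      rw [add_sub_cancel] at h1
      rw [h1, hz0 _ (y i b - x b) (a2 ⟨i, rfl⟩), add_zero]
    · rw [hyc i b h, hD K Ω (W b) D (x b) (t i b)]
      have h1 : zd D (t i b) = 0 := by
        rcases ht i b h with h2 | h2
        · rw [h2]
          apply hz0
          rw [xc_zero]
          exact zero_mem _
        · exact hz0 _ _ (c3' h2.1)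
      rw [h1, add_zero]
  -- linear algebra
  have hspan := hli.span_eq_top_of_card_eq_finrank' (by
    rw [Module.finrank_fintype_fun_eq_card, Fintype.card_option, Fintype.card_fin, hcard])
  have hf : (∑ b, zd D (x b) • (LinearMap.proj b : (σ → Ω) →ₗ[Ω] Ω)) = 0 := by
    refine LinearMap.ext_on_range hspan ?_
    intro o
    rw [LinearMap.zero_apply, LinearMap.sum_apply]
    simp only [LinearMap.smul_apply, LinearMap.proj_apply, smul_eq_mul]
    rcases o with _ | i
    · rw [← hsum x hx0 hg]
      refine Finset.sum_congr rfl fun b _ => ?_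
      simp only [Option.elim]
      ring
    · rw [← hsum (y i) (hy0 i) (hgy i)]
      refine Finset.sum_congr rfl fun b _ => ?_
      simp only [Option.elim]
      rw [hom i b]
      ring
  have hw : zd D (x b0) = 0 := by
    have h1 := LinearMap.congr_fun hf (Pi.single b0 1)
    rw [LinearMap.zero_apply, LinearMap.sum_apply] at h1
    simp only [LinearMap.smul_apply, LinearMap.proj_apply, smul_eq_mul, Pi.single_apply,
      mul_ite, mul_one, mul_zero, Finset.sum_ite_eq', Finset.mem_univ, if_true] at h1
    exact h1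
  have h9 := hN _ _ (hx0 b0)
  rw [hw, mul_zero, hD1] at h9
  exact one_ne_zero h9

end Pool.Agent.Helper57.TN.GEN
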