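import Pool.Agent.Helper3.TN.GoalsZ

/-!
# MP_a41896_nt, project TN, packet ELIMN: elimination of the coordinate `a` in all blocks
-/

set_option autoImplicit false

open MvPolynomial

namespace Pool.Agent.Helper57.TN.ELIMN

open Pool.Agent.Helper92.Ru

lemma log_PH_nonneg {k : Type} [Field k] [NumberField k] {σ : Type} (p : MvPolynomial σ k) :
    0 ≤ Real.log (PH p) := Real.log_nonneg (Height.one_le_mulHeight _)

/-- the statement for the sets of `r` indices -/
def PS (K : Type) [Field K] [NumberField K] (σ V κ : Type) [Fintype σ] [DecidableEq σ] [Fintype V]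
    [DecidableEq V] [Fintype κ] [DecidableEq κ] (D0 w : ℕ) (C0 : ℝ) (wr : ℕ) (Cr : ℝ)
    (s : Finset κ) : Prop :=
  ∀ (a : σ) (em : κ × σ → V) (G : κ → MvPolynomial σ K) (F : MvPolynomial V K) (q : κ → ℕ)
      (S : ℝ), Function.Bijective em → (∀ k, 1 ≤ q k) → (∀ k, (q k : ℝ) ≤ S) → 0 ≤ S →
      (∀ k i, (G k).degreeOf i ≤ D0) → (∀ k, 1 ≤ (G k).degreeOf a) →
      (∀ k, Real.log (PH (G k)) ≤ C0 * (S / q k)) →
      (∀ k i, F.degreeOf (em (k, i)) ≤ w * q k) →
      ∃ R : MvPolynomial V K, (∀ k ∈ s, R.degreeOf (em (k, a)) = 0) ∧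
        (∀ k i, R.degreeOf (em (k, i)) ≤ wr * q k) ∧
        Real.log (PH R) ≤ Cr * (Real.log (PH F) + S) ∧
        (∃ b : MvPolynomial V K, ∀ (A : Type) [CommRing A] [Algebra K A] (x : V → A),
          (∀ k ∈ s, aeval (fun i => x (em (k, i))) (G k) = 0) →
            aeval x R = aeval x b * aeval x F) ∧
        ∀ (Ω : Type) [Field Ω] [Algebra K Ω] [IsAlgClosed Ω] (x : V → Ω),
          AlgebraicIndependent K (fun h : κ × {i : σ // i ≠ a} => x (em (h.1, h.2))) →
          (∀ y : V → Ω, (∀ k i, (i ≠ a ∨ k ∉ s) → y (em (k, i)) = x (em (k, i))) →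
            (∀ k ∈ s, aeval (fun i => y (em (k, i))) (G k) = 0) → aeval y F ≠ 0) →
          aeval x R ≠ 0

theorem step (hE : Pool.Agent.Helper3.TN.ELIM1) (K : Type) [Field K] [NumberField K]
    (σ V κ : Type) [Fintype σ] [DecidableEq σ] [Fintype V] [DecidableEq V] [Fintype κ]
    [DecidableEq κ] (D0 w : ℕ) (C0 : ℝ) (hC0 : 0 ≤ C0) (r : ℕ) :
    ∃ (wr : ℕ) (Cr : ℝ), 1 ≤ wr ∧ 0 ≤ Cr ∧
      ∀ s : Finset κ, s.card = r → PS K σ V κ D0 w C0 wr Cr s := by
  obtain ⟨C, hC, hE⟩ := hE K σ V D0
  induction r with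
  | zero =>
    refine ⟨w + 1, 1, by omega, by norm_num, fun s hs => ?_⟩
    rw [Finset.card_eq_zero] at hs
    subst hs
    intro a em G F q S hem hq hqS hS hG1 hG2 hG3 hF
    refine ⟨F, by simp, ?_, ?_, ⟨1, ?_⟩, ?_⟩
    · intro k i
      exact (hF k i).trans (Nat.mul_le_mul_right _ (by omega))
    · linarith
    · intro A _ _ x _
      simp
    · intro Ω _ _ _ x _ h
      exact h x (fun k i _ => rfl) (by simp)
  | succ r ih =>
    obtain ⟨wr, Cr, hwr, hCr, ih⟩ := ih
    refine ⟨2 * D0 * wr + 1, wr * C0 + D0 * Cr + C * wr, by omega, by positivity,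
      fun s hs => ?_⟩
    obtain ⟨k, s', hks, hsk, hs'⟩ := Finset.card_eq_succ.1 hs
    subst hsk
    intro a em G F q S hem hq hqS hS hG1 hG2 hG3 hF
    obtain ⟨R', hR1, hR2, hR3, ⟨b', hb'⟩, hR5⟩ :=
      ih s' hs' a em G F q S hem hq hqS hS hG1 hG2 hG3 hF
    have hemi : Function.Injective (fun i => em (k, i)) := fun i j hij => by
      have := hem.1 hij
      simpa using this
    have hfl : ∀ k, q k ≤ ⌊S⌋₊ := fun k => Nat.le_floor (hqS k)
    have hflS : ((⌊S⌋₊ : ℕ) : ℝ) ≤ S := Nat.floor_le hS
    obtain ⟨R, h1, h2, h3, h4, ⟨b, hb⟩, h6⟩ := hE a (fun i => em (k, i)) (G k) R' (wr * q k)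
      (wr * ⌊S⌋₊) hemi (hG1 k) (hG2 k) (hR2 k a) (Nat.mul_le_mul_left _ (hfl k))
      (Nat.mul_pos (by omega) ((hq k).trans (hfl k))) (fun v => by
        obtain ⟨⟨k', i⟩, rfl⟩ := hem.2 v
        exact (hR2 k' i).trans (Nat.mul_le_mul_left _ (hfl k')))
    have hout : ∀ k' i, k' ≠ k → em (k', i) ∉ Set.range (fun i => em (k, i)) := by
      rintro k' i hk ⟨j, hj⟩
      have := hem.1 hj
      simp only [Prod.mk.injEq] at this
      exact hk this.1.symm
    refine ⟨R, ?_, ?_, ?_, ⟨b * b', ?_⟩, ?_⟩
    · intro k' hk'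
      by_cases hkk : k' = k
      · subst hkk
        exact h1
      · have h7 : k' ∈ s' := by
          rcases Finset.mem_insert.1 hk' with h | h
          · exact absurd h hkk
          · exact h
        have h8 := h2 _ (hout k' a hkk)
        rw [hR1 k' h7, mul_zero] at h8
        omega
    · intro k' i
      by_cases hkk : k' = k
      · subst hkk
        refine (h3 i).trans ?_
        have h9 := Nat.mul_le_mul_left D0 (hR2 k' i)
        calc wr * q k' * D0 + D0 * R'.degreeOf (em (k', i))
            ≤ wr * q k' * D0 + D0 * (wr * q k') := by omega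
          _ = 2 * D0 * wr * q k' := by ring
          _ ≤ (2 * D0 * wr + 1) * q k' := Nat.mul_le_mul_right _ (by omega)
      · refine (h2 _ (hout k' i hkk)).trans ?_
        refine (Nat.mul_le_mul_left D0 (hR2 k' i)).trans ?_
        calc D0 * (wr * q k') = D0 * wr * q k' := by ring
          _ ≤ (2 * D0 * wr + 1) * q k' := Nat.mul_le_mul_right _ (by nlinarith)
    · refine h4.trans ?_
      have hq0 : (0 : ℝ) < q k := by exact_mod_cast hq k
      have e1 : ((wr * q k : ℕ) : ℝ) * Real.log (PH (G k)) ≤ wr * C0 * S := by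
        have h10 := mul_le_mul_of_nonneg_left (hG3 k) (by positivity : (0 : ℝ) ≤ wr * q k)
        refine (le_of_eq (by push_cast; ring)).trans (h10.trans (le_of_eq ?_))
        field_simp
      have e2 : (D0 : ℝ) * Real.log (PH R') ≤ D0 * Cr * (Real.log (PH F) + S) := by
        have h11 := mul_le_mul_of_nonneg_left hR3 (by positivity : (0 : ℝ) ≤ (D0 : ℝ))
        linarith
      have e3 : C * ((wr * ⌊S⌋₊ : ℕ) : ℝ) ≤ C * wr * S := by
        push_cast
        have h12 := mul_le_mul_of_nonneg_left hflS (by positivity : (0 : ℝ) ≤ C * wr)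
        linarith
      have hF0 := log_PH_nonneg F
      have e4 : 0 ≤ (wr * C0 + C * wr) * Real.log (PH F) := by positivity
      nlinarith
    · intro A _ _ x hx
      rw [hb A x (hx k (Finset.mem_insert_self _ _)),
        hb' A x (fun k' hk' => hx k' (Finset.mem_insert_of_mem hk')), map_mul]
      ring
    · intro Ω _ _ _ x hind hy
      refine h6 Ω x ?_ ?_
      · exact hind.comp (fun i : {i : σ // i ≠ a} => ((k, i) : κ × {i : σ // i ≠ a}))
          (fun i j hij => by simpa using hij)
      · intro t ht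
        have hup : ∀ k' i, (k' ≠ k ∨ i ≠ a) →
            Function.update x (em (k, a)) t (em (k', i)) = x (em (k', i)) := by
          intro k' i hki
          rw [Function.update_of_ne]
          intro he
          have := hem.1 he
          simp only [Prod.mk.injEq] at this
          rcases hki with h | h
          · exact h this.1
          · exact h this.2
        refine hR5 Ω (Function.update x (em (k, a)) t) ?_ ?_
        · have : (fun h : κ × {i : σ // i ≠ a} =>
              Function.update x (em (k, a)) t (em (h.1, h.2)))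
              = fun h : κ × {i : σ // i ≠ a} => x (em (h.1, h.2)) := by
            funext h
            exact hup _ _ (Or.inr h.2.2)
          rw [this]
          exact hind
        · intro y hy1 hy2
          refine hy y ?_ ?_
          · intro k' i hki
            rcases hki with h | h
            · rw [hy1 k' i (Or.inl h), hup k' i (Or.inr h)]
            · rw [Finset.mem_insert, not_or] at h
              rw [hy1 k' i (Or.inr h.2), hup k' i (Or.inl h.1)]
          · intro k' hk'
            rcases Finset.mem_insert.1 hk' with h | h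
            · subst h
              have : (fun i => y (em (k', i)))
                  = Function.update (fun i => x (em (k', i))) a t := by
                funext i
                rw [hy1 k' i (Or.inr hks)]
                by_cases hia : i = a
                · subst hia
                  simp
                · rw [hup k' i (Or.inr hia), Function.update_of_ne hia]
              rw [this]
              exact ht
            · exact hy2 k' h

theorem t (h : Pool.Agent.Helper3.TN.ELIM1) : Pool.Agent.Helper3.TN.ELIMN := by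
  intro K _ _ σ V κ _ _ _ _ _ _ D0 w C0 hC0
  obtain ⟨wr, Cr, -, hCr, hs⟩ := step h K σ V κ D0 w C0 hC0 (Finset.univ : Finset κ).card
  refine ⟨wr, Cr, hCr, ?_⟩
  intro a em G F q S hem hq hqS hS hG1 hG2 hG3 hF
  obtain ⟨R, h1, h2, h3, ⟨b, hb⟩, h5⟩ :=
    hs Finset.univ rfl a em G F q S hem hq hqS hS hG1 hG2 hG3 hF
  refine ⟨R, fun k => h1 k (Finset.mem_univ _), h2, h3, ⟨b, ?_⟩, ?_⟩
  · intro A _ _ x hx
    exact hb A x (fun k _ => hx k)
  · intro Ω _ _ _ x hind hy
    refine h5 Ω x hind ?_
    intro y hy1 hy2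
    exact hy y (fun k i hi => hy1 k i (Or.inl hi)) (fun k => hy2 k (Finset.mem_univ _))

end Pool.Agent.Helper57.TN.ELIMN
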