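import Pool.Agent.Helper92.TN.GoalsW

/-!
# Project TN (MP_a41896_nt), packet EASYS: the easy steps of the tower
-/

set_option autoImplicit false

namespace Pool.Agent.Helper57.TN.EASYS

open MvPolynomial WeierstrassCurve
open Pool.Agent.Helper29.BL Pool.Agent.Helper92.Ru Pool.Agent.Helper42.SG
open Pool.Agent.Helper60.T3 (WL IP zd)
open Pool.Agent.Helper92.TN

section closure

variable {K Ω : Type} [Field K] [Field Ω] [Algebra K Ω]

theorem sub_acl (hA : ACLA) (S : Set Ω) : S ⊆ (acl K S : Set Ω) := (hA K Ω S ∅).2.1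

theorem acl_le (hA : ACLA) {S T : Set Ω} (h : S ⊆ (acl K T : Set Ω)) : acl K S ≤ acl K T := by
  have h1 := (hA K Ω T ∅).2.2.2.1
  rw [Set.union_empty, Set.union_empty] at h1
  rw [← h1]
  exact (hA K Ω S _).2.2.1 h

theorem exch (hA : ACLA) {S : Set Ω} {z v : Ω} (h : z ∈ acl K (insert v S))
    (h' : z ∉ acl K S) : v ∈ acl K (insert z S) := (hA K Ω S ∅).2.2.2.2.1 z v h h'

/-- an element of a hypersurface is algebraic over the other coordinates -/
theorem hyp (hA : ACLA) (hB : ACLB) {σ : Type} [Finite σ] (X : σ → Ω) (a : σ)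
    (g : MvPolynomial σ K) (hg : g ≠ 0) (h0 : aeval X g = 0)
    (hi : AlgebraicIndependent K (fun c : {c : σ // c ≠ a} => X c)) (T : Set Ω)
    (hT : ∀ c, c ≠ a → X c ∈ acl K T) : X a ∈ acl K T := by
  by_contra hb
  have h1 : AlgebraicIndependent K X := by
    rw [(hB K Ω).1 σ X]
    intro i hi'
    rcases eq_or_ne i a with h | h
    · subst h
      refine hb (acl_le hA ?_ hi')
      rintro _ ⟨c, hc, rfl⟩
      exact hT c hc
    · have h2 := ((hB K Ω).1 _ _).1 hi ⟨i, h⟩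
      have h3 : X '' {j | j ≠ i} ⊆ insert (X a)
          ((fun c : {c : σ // c ≠ a} => X c) '' {j | j ≠ ⟨i, h⟩}) := by
        rintro _ ⟨c, hc, rfl⟩
        rcases eq_or_ne c a with h4 | h4
        · subst h4
          exact Set.mem_insert _ _
        · refine Set.mem_insert_of_mem _ ⟨⟨c, h4⟩, ?_, rfl⟩
          intro h5
          exact hc (congrArg Subtype.val h5)
      have h4 := exch hA (acl_le hA (h3.trans (sub_acl hA _)) hi') h2
      refine hb (acl_le hA ?_ h4)
      intro z hz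
      rcases hz with hz | ⟨c, -, hz⟩
      · rw [hz]
        exact hT i h
      · rw [← hz]
        exact hT c c.2
  have h2 := (injective_iff_map_eq_zero _).1 h1 g h0
  exact hg h2

theorem conv {k : IntermediateField K Ω} {t z : Ω}
    (h : IsAlgebraic (IntermediateField.adjoin K ((k : Set Ω) ∪ {t})) z) :
    IsAlgebraic (IntermediateField.adjoin k {t}) z := by
  rw [← IntermediateField.restrictScalars_adjoin K k {t}] at h
  exact h

end closure

theorem t (hR : REM) (hD : DLOW) (hF : DGF) (hA : ACLA) (hB : ACLB) (hP : ACLP) : EASYS := by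
  intro K _ _ σ _ _ W hW n a g g0 Ω _ _ _ _ x x0 e N h0 hTD hh0 hN j i J hia hJ hTW
  obtain ⟨hT1, hT2⟩ := hTW
  obtain ⟨F, hFd⟩ : ∃ F : (Fin n × {i : σ // i ≠ a}) ⊕ {i : σ // i ≠ a} → Ω,
    F = Sum.elim (fun h : Fin n × {i : σ // i ≠ a} => xc (x h.1 h.2))
      (fun i : {i : σ // i ≠ a} => xc (x0 i)) := ⟨_, rfl⟩
  have hind : AlgebraicIndependent K F := by rw [hFd]; exact hTD.ind
  obtain ⟨T, hTd⟩ : ∃ T : Set Ω, T = F '' {s | s ≠ Sum.inl (j, ⟨i, hia⟩)} := ⟨_, rfl⟩
  obtain ⟨k, hk⟩ : ∃ k : IntermediateField K Ω, k = acl K T := ⟨_, rfl⟩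
  obtain ⟨τ, hτ⟩ : ∃ τ : Ω, τ = xc (x j i) := ⟨_, rfl⟩
  -- (1)
  have hτk : τ ∉ k := by
    have h1 := ((hB K Ω).1 _ _).1 hind (Sum.inl (j, ⟨i, hia⟩))
    rw [← hTd, ← hk] at h1
    rw [hτ]
    rw [hFd] at h1
    exact h1
  have hsub : ∀ s, s ≠ Sum.inl (j, ⟨i, hia⟩) → F s ∈ k := by
    intro s hs
    rw [hk]
    exact sub_acl hA _ (by rw [hTd]; exact ⟨s, hs, rfl⟩)
  have hx0k : ∀ b, xc (x0 b) ∈ k := by
    have h1 : ∀ b, b ≠ a → xc (x0 b) ∈ k := by
      intro b hb
      have h2 := hsub (Sum.inr ⟨b, hb⟩) (by simp)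
      rw [hFd] at h2
      exact h2
    intro b
    rcases eq_or_ne b a with h | h
    · subst h
      rw [hk]
      refine hyp hA hB (fun i => xc (x0 i)) b g0 hTD.g0ne hTD.on0 ?_ T ?_
      · have h2 := hTD.ind.comp (fun i : {i : σ // i ≠ b} => (Sum.inr i :
          (Fin n × {i : σ // i ≠ b}) ⊕ {i : σ // i ≠ b})) Sum.inr_injective
        exact h2
      · intro c hc
        rw [← hk]
        exact h1 c hc
    · exact h1 b h
  have hrow : ∀ j', AlgebraicIndependent K (fun c : {c : σ // c ≠ a} => xc (x j' c)) := by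
    intro j'
    exact hTD.ind.comp (fun i : {i : σ // i ≠ a} => (Sum.inl (j', i) :
      (Fin n × {i : σ // i ≠ a}) ⊕ {i : σ // i ≠ a})) (fun u v h => by
        have := Sum.inl_injective h
        exact (Prod.mk.inj this).2)
  have hxk : ∀ j' b, b ≠ a → (j' = j → b ≠ i) → xc (x j' b) ∈ k := by
    intro j' b hb h1
    have h2 := hsub (Sum.inl (j', ⟨b, hb⟩)) (by
      intro h3
      have h4 := Sum.inl_injective h3
      have h5 := Prod.mk.inj h4
      exact h1 h5.1 (congrArg Subtype.val h5.2))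
    rw [hFd] at h2
    exact h2
  have hxk' : ∀ j' b, j' ≠ j → xc (x j' b) ∈ k := by
    intro j' b hj
    rcases eq_or_ne b a with h | h
    · subst h
      rw [hk]
      refine hyp hA hB (fun i => xc (x j' i)) b (g j') (hTD.gne j') (hTD.on j') (hrow j') T ?_
      intro c hc
      rw [← hk]
      exact hxk j' c hc (fun h => absurd h hj)
    · exact hxk j' b h (fun h => absurd h hj)
  -- (2)
  have hall : ∀ z : Ω, IsAlgebraic (IntermediateField.adjoin k {τ}) z := by
    intro z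
    apply conv
    rw [← (hA K Ω ((k : Set Ω) ∪ {τ}) ∅).1]
    have hkk : ∀ z ∈ k, z ∈ acl K ((k : Set Ω) ∪ {τ}) := fun z hz =>
      sub_acl hA _ (Or.inl hz)
    have hττ : τ ∈ acl K ((k : Set Ω) ∪ {τ}) := sub_acl hA _ (Or.inr rfl)
    refine acl_le hA ?_ (hTD.all z)
    rintro _ (⟨⟨j', b⟩, rfl⟩ | ⟨b, rfl⟩)
    · change xc (x j' b) ∈ acl K ((k : Set Ω) ∪ {τ})
      rcases eq_or_ne j' j with h | h
      · subst h
        have h1 : ∀ c, c ≠ a → xc (x j' c) ∈ acl K ((k : Set Ω) ∪ {τ}) := by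
          intro c hc
          rcases eq_or_ne c i with h2 | h2
          · subst h2
            rw [← hτ]
            exact hττ
          · exact hkk _ (hxk j' c hc (fun _ => h2))
        rcases eq_or_ne b a with h2 | h2
        · subst h2
          exact hyp hA hB (fun i => xc (x j' i)) b (g j') (hTD.gne j') (hTD.on j') (hrow j') _ h1
        · exact h1 b h2
      · exact hkk _ (hxk' j' b h)
    · exact hkk _ (hx0k b)
  have hIA : IsAlgClosed k := by
    rw [hk]
    exact (hA K Ω T ∅).2.2.2.2.2.1 inferInstance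
  have htr : ∀ z : Ω, z ∉ k → Transcendental k z := by
    intro z hz
    have h1 := (hA K Ω T ∅).2.2.2.2.2.2 inferInstance z
    rw [← hk] at h1
    exact h1.resolve_left hz
  have hkz : ∀ z : Ω, z ∈ k → IsAlgebraic k z := fun z hz =>
    isAlgebraic_algebraMap (⟨z, hz⟩ : k)
  have htτ := htr τ hτk
  -- coordinates
  have hIP : ∀ (b : σ) (P : (WL Ω (W b)).Point), xc P ∈ k → IP (k : Set Ω) P := by
    intro b P h
    have := hW b
    rw [hk] at h ⊢
    exact (hP K Ω (W b) T P P 0).1 h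
  have hIPw : ∀ (b : σ) (P Q : (WL Ω (W b)).Point) (m : ℕ), IP (k : Set Ω) P →
      IP (k : Set Ω) Q → IP (k : Set Ω) ((2 ^ m) • P - Q) := by
    intro b P Q m h1 h2
    have := hW b
    rw [hk] at h1 h2 ⊢
    have h3 := ((hP K Ω (W b) T P P m).2.2 h1 h1).2.2
    exact ((hP K Ω (W b) T ((2 ^ m) • P) Q 0).2.2 h3 h2).2.1
  have hxc : ∀ (b : σ) (P : (WL Ω (W b)).Point), IP (k : Set Ω) P → xc P ∈ k := by
    intro b P h
    rcases h with h | h
    · rw [h, xc_zero]
      exact zero_mem _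
    · exact h.1
  -- (3)
  have hwv : ∀ h ∈ J, wv W x x0 e h ∈ k := by
    rintro ⟨j', b⟩ hh
    refine hxc b _ (hIPw b _ _ _ (hIP b _ ?_) (hIP b _ (hx0k b)))
    rcases eq_or_ne j' j with h1 | h1
    · have h2 := hJ _ hh h1
      exact hxk j' b h2.1 (fun _ => h2.2)
    · exact hxk' j' b h1
  obtain ⟨v, hv⟩ : ∃ v : Ω, v = wv W x x0 e (j, i) := ⟨_, rfl⟩
  -- (4)
  obtain ⟨-, -, hd1, -⟩ := hF k Ω τ τ htτ
  have hlow : (4 : ℝ) ^ e j ≤ 2 * dg k τ v := by
    have := hW i
    have h1 := hD K Ω (W i) k τ hIA htτ hall (x j i) (x0 i) (e j) (hIP i _ (hx0k i))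
    rw [← hτ, hd1, mul_one] at h1
    rw [hv]
    exact h1
  have h4pos : (0 : ℝ) < 4 ^ e j := by positivity
  have hvt : Transcendental k v := by
    intro h
    have h1 := (hF k Ω τ v htτ).2.1 h
    rw [h1, mul_zero] at hlow
    linarith
  have hvk : v ∉ k := fun h => hvt (hkz v h)
  -- (5)
  have hsum : ∑ h : Fin n × {i : σ // i ≠ a}, ((N h.1 : ℕ) : ℝ) * dg k τ (xc (x h.1 h.2)) <
      dg k τ v := by
    have h1 : ∑ h : Fin n × {i : σ // i ≠ a}, ((N h.1 : ℕ) : ℝ) * dg k τ (xc (x h.1 h.2)) =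
        (N j : ℝ) := by
      rw [Finset.sum_eq_single (j, ⟨i, hia⟩)]
      · change (N j : ℝ) * dg k τ (xc (x j i)) = N j
        rw [← hτ, hd1, mul_one]
      · rintro ⟨j', b, hb⟩ - hne
        have h2 : xc (x j' b) ∈ k := by
          refine hxk j' b hb (fun h3 h4 => hne ?_)
          subst h3
          subst h4
          rfl
        change (N j' : ℝ) * dg k τ (xc (x j' b)) = 0
        rw [(hF k Ω τ _ htτ).2.1 (hkz _ h2), mul_zero]
      · intro h
        exact absurd (Finset.mem_univ _) h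
    rw [h1]
    have h2 : ((N j * 2 : ℕ) : ℝ) < ((4 ^ e j : ℕ) : ℝ) := by
      have := hN j
      have h3 : N j * 2 ≤ N j * h0 := Nat.mul_le_mul_left _ hh0
      exact_mod_cast lt_of_le_of_lt h3 this
    push_cast at h2
    linarith
  have hS : wv W x x0 e '' (J : Set (Fin n × σ)) ⊆ (k : Set Ω) := by
    rintro _ ⟨h, hh, rfl⟩
    exact hwv h hh
  have hLI := hR K Ω k (wv W x x0 e '' (J : Set (Fin n × σ))) τ v hS htτ hvt hall
    (Fin n × {i : σ // i ≠ a}) (fun h => xc (x h.1 h.2)) (fun h => N h.1) hsum hT1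
  refine ⟨?_, ?_⟩
  · rw [Finset.coe_insert, Set.image_insert_eq, ← hv]
    exact hLI
  -- (6)
  have hnJ : (j, i) ∉ J := fun h => (hJ _ h rfl).2 rfl
  have hle : acl K (wv W x x0 e '' (J : Set (Fin n × σ))) ≤ k := by
    rw [hk] at hS ⊢
    exact acl_le hA hS
  rw [(hB K Ω).1]
  rintro ⟨h, hh⟩ hbad
  rcases eq_or_ne h (j, i) with h1 | h1
  · subst h1
    refine hvk (hle (acl_le hA ?_ (by rw [hv]; exact hbad)))
    rintro _ ⟨⟨h', hh'⟩, hne, rfl⟩
    refine sub_acl hA _ ⟨h', ?_, rfl⟩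
    rcases Finset.mem_insert.1 hh' with h3 | h3
    · exact absurd (Subtype.ext h3) hne
    · exact h3
  · have hhJ : h ∈ J := (Finset.mem_insert.1 hh).resolve_left h1
    have h2 := ((hB K Ω).1 _ _).1 hT2 ⟨h, hhJ⟩
    have h3 : (fun h : {h : Fin n × σ // h ∈ insert (j, i) J} => wv W x x0 e h) ''
        {s | s ≠ ⟨h, hh⟩} ⊆ insert v ((fun h : {h : Fin n × σ // h ∈ J} => wv W x x0 e h) ''
        {s | s ≠ ⟨h, hhJ⟩}) := by
      rintro _ ⟨⟨h', hh'⟩, hne, rfl⟩
      rcases Finset.mem_insert.1 hh' with h4 | h4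
      · subst h4
        left
        exact hv.symm
      · right
        refine ⟨⟨h', h4⟩, ?_, rfl⟩
        intro h5
        have h6 : h' = h := congrArg Subtype.val h5
        exact hne (Subtype.ext h6)
    have h4 := exch hA (acl_le hA (h3.trans (sub_acl hA _)) hbad) h2
    refine hvk (hle (acl_le hA ?_ h4))
    intro z hz
    rcases hz with hz | ⟨⟨h', hh'⟩, -, hz⟩
    · rw [hz]
      exact sub_acl hA _ ⟨h, hhJ, rfl⟩
    · rw [← hz]
      exact sub_acl hA _ ⟨h', hh', rfl⟩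

end Pool.Agent.Helper57.TN.EASYS
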