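import Pool.Agent.Helper92.TN.GoalsD

/-!
# MP_a41896_nt, project TN, packet NPI: the product of the conjugates of `P(x)` is integral
-/

set_option autoImplicit false

open MvPolynomial

namespace Pool.Agent.Helper57.TN.NPI

lemma pw {A Θ : Type} [Field A] [Fintype Θ] (a : A) (ρ : Θ → A) (n : ℕ) (m : Θ → ℕ)
    (hm : ∀ θ, m θ ≤ n) :
    a ^ n * ∏ θ, ρ θ ^ m θ =
      ∏ r ∈ Finset.range n, (a * ∏ θ ∈ Finset.univ.filter (fun θ => r < m θ), ρ θ) := by
  rw [Finset.prod_mul_distrib, Finset.prod_const, Finset.card_range]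
  congr 1
  have h1 : ∀ r ∈ Finset.range n, ∏ θ ∈ Finset.univ.filter (fun θ => r < m θ), ρ θ
      = ∏ θ, (if r < m θ then ρ θ else 1) := fun r _ => Finset.prod_filter _ _
  rw [Finset.prod_congr rfl h1, Finset.prod_comm]
  refine Finset.prod_congr rfl fun θ _ => ?_
  rw [← Finset.prod_filter, Finset.prod_const]
  congr 1
  have h2 : (Finset.range n).filter (fun r => r < m θ) = Finset.range (m θ) := by
    ext r
    simp only [Finset.mem_filter, Finset.mem_range]
    have := hm θ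
    omega
  rw [h2, Finset.card_range]

theorem t : Pool.Agent.Helper92.TN.NPI := by
  classical
  intro R A _ _ _ ι Θ _ _ lc ρ n P hint hdeg
  have h1 : ∀ θ, aeval (fun i => ρ i θ) P =
      ∑ d ∈ P.support, algebraMap R A (P.coeff d) * ∏ i, ρ i θ ^ d i := by
    intro θ
    rw [aeval_def, eval₂_eq']
  rw [Finset.prod_congr rfl (fun θ _ => h1 θ), Finset.prod_univ_sum, Finset.mul_sum]
  refine IsIntegral.sum _ fun μ hμ => ?_
  rw [Fintype.mem_piFinset] at hμ
  have h2 : (∏ i, lc i ^ n i) * ∏ θ, (algebraMap R A (P.coeff (μ θ)) * ∏ i, ρ i θ ^ (μ θ) i)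
      = (∏ θ, algebraMap R A (P.coeff (μ θ))) *
        ∏ i, (lc i ^ n i * ∏ θ, ρ i θ ^ (μ θ) i) := by
    rw [Finset.prod_mul_distrib, Finset.prod_mul_distrib, Finset.prod_comm]
    ring
  rw [h2]
  refine IsIntegral.mul (IsIntegral.prod _ fun θ _ => isIntegral_algebraMap)
    (IsIntegral.prod _ fun i _ => ?_)
  have h3 : ∀ θ, (μ θ) i ≤ n i := fun θ =>
    (monomial_le_degreeOf i (hμ θ)).trans (hdeg i)
  rw [pw (lc i) (ρ i) (n i) (fun θ => (μ θ) i) h3]
  exact IsIntegral.prod _ fun r _ => hint i _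

end Pool.Agent.Helper57.TN.NPI
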